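import Mathlib

set_option autoImplicit false

namespace Pool.Agent.H.MP_95c4c5_lc
open Finset

theorem zs1 {ι : Type} [DecidableEq ι] (M : ℕ) (hM : 2 ≤ M) (s : Finset ι) (u : ι → ℤ)
    (h1 : ∀ i ∈ s, |u i| ≤ M) (h2 : |∑ i ∈ s, u i| ≤ M) (h3 : M ^ 4 < s.card) :
    ∃ b ⊆ s, b.Nonempty ∧ b.card ≤ 2 * M ∧ ∑ i ∈ b, u i = 0 := by
  classical
  by_cases h0 : ∃ i ∈ s, u i = 0
  · obtain ⟨i, hi, e⟩ := h0
    exact ⟨{i}, by simpa using hi, by simp, by simp; omega, by simp [e]⟩
  push Not at h0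
  have few : ∀ (u : ι → ℤ), (∀ i ∈ s, |u i| ≤ M) → |∑ i ∈ s, u i| ≤ M → (∀ i ∈ s, u i ≠ 0) →
      ∃ a : ℕ, 0 < a ∧ a ≤ M ∧ M ≤ (s.filter fun i => u i = a).card := by
    intro u h1 h2 h0
    by_contra hc
    push Not at hc
    let Pp := s.filter fun i => 0 < u i
    let Nn := s.filter fun i => ¬ 0 < u i
    have e1 : Pp.card ≤ M * M := by
      have : Pp ⊆ (Icc 1 M).biUnion fun a : ℕ => s.filter fun i => u i = a := by
        intro i hi
        simp only [Pp, mem_filter] at hi
        have := abs_le.1 (h1 i hi.1)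
        simp only [mem_biUnion, mem_Icc, mem_filter]
        exact ⟨(u i).toNat, ⟨by omega, by omega⟩, hi.1, by omega⟩
      refine (card_le_card this).trans (card_biUnion_le.trans ?_)
      refine (sum_le_card_nsmul _ _ M fun a ha => ?_).trans (by simp)
      rw [mem_Icc] at ha
      exact (hc a ha.1 ha.2).le
    have e2 : ∑ i ∈ Pp, u i ≤ Pp.card • (M : ℤ) :=
      sum_le_card_nsmul _ _ _ fun i hi => (abs_le.1 (h1 i (mem_filter.1 hi).1)).2
    have e3 : ∑ i ∈ Nn, u i ≤ Nn.card • (-1 : ℤ) :=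
      sum_le_card_nsmul _ _ _ fun i hi => by
        have := mem_filter.1 hi
        have := h0 i this.1
        omega
    have e4 : ∑ i ∈ Pp, u i + ∑ i ∈ Nn, u i = ∑ i ∈ s, u i := sum_filter_add_sum_filter_not _ _ _
    have e5 : Pp.card + Nn.card = s.card := card_filter_add_card_filter_not _
    have e6 := (abs_le.1 h2).1
    simp only [nsmul_eq_mul] at e2 e3
    have e7 : Nn.card ≤ M + Pp.card * M := by zify; linarith
    have e8 : Pp.card * M ≤ M * M * M := Nat.mul_le_mul_right _ e1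
    have e9 : M * M + (M + M * M * M) ≤ M ^ 4 := by
      have : 2 * (M * M * M) ≤ M ^ 4 := by
        calc _ ≤ M * (M * M * M) := Nat.mul_le_mul_right _ hM
          _ = _ := by ring
      have : 2 * (M * M) ≤ M * M * M := by nlinarith
      nlinarith
    omega
  obtain ⟨a, a0, a1, a2⟩ := few u h1 h2 h0
  obtain ⟨c, c0, c1, c2⟩ := few (fun i => - u i) (by simpa using h1)
    (by rw [sum_neg_distrib, abs_neg]; exact h2) (by simpa using h0)
  obtain ⟨A, hA, hA'⟩ := exists_subset_card_eq (c1.trans a2)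
  obtain ⟨C, hC, hC'⟩ := exists_subset_card_eq (a1.trans c2)
  have hd : Disjoint A C := disjoint_left.2 fun i h h' => by
    have := (mem_filter.1 (hA h)).2
    have := (mem_filter.1 (hC h')).2
    omega
  refine ⟨A ∪ C, union_subset (hA.trans (filter_subset _ _)) (hC.trans (filter_subset _ _)),
    (card_pos.1 (by omega : 0 < A.card)).mono subset_union_left, ?_, ?_⟩
  · rw [card_union_of_disjoint hd]; omega
  · rw [sum_union hd, sum_congr rfl fun i hi => (mem_filter.1 (hA hi)).2,
      sum_congr (s₁ := C) rfl (g := fun _ => - (c : ℤ)) fun i hi => by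
        have := (mem_filter.1 (hC hi)).2; omega]
    simp [hA', hC']; ring

theorem blocks {ι : Type} [DecidableEq ι] (M : ℕ) (hM : 2 ≤ M) (u : ι → ℤ) (k : ℕ) :
    ∀ s : Finset ι, (∀ i ∈ s, |u i| ≤ M) → |∑ i ∈ s, u i| ≤ M → s.card ≤ k →
    ∃ F : Finset (Finset ι), (∀ b ∈ F, b ⊆ s ∧ b.Nonempty ∧ b.card ≤ 2 * M ∧ ∑ i ∈ b, u i = 0) ∧
      (F : Set (Finset ι)).PairwiseDisjoint id ∧ (s \ F.biUnion id).card ≤ M ^ 4 := by
  induction k with
  | zero =>
    intro s _ _ h
    exact ⟨∅, by simp, by simp, by simp; omega⟩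
  | succ k ih =>
    intro s h1 h2 h3
    by_cases h : s.card ≤ M ^ 4
    · exact ⟨∅, by simp, by simp, by simpa using h⟩
    obtain ⟨b, b1, b2, b3, b4⟩ := zs1 M hM s u h1 h2 (by omega)
    obtain ⟨F, f1, f2, f3⟩ := ih (s \ b) (fun i hi => h1 i (mem_sdiff.1 hi).1)
      (by rw [sum_sdiff_eq_sub b1, b4, sub_zero]; exact h2)
      (by have := card_sdiff_add_card_eq_card b1; have := card_pos.2 b2; omega)
    refine ⟨insert b F, ?_, ?_, ?_⟩
    · intro c hc
      rcases mem_insert.1 hc with rfl | hc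
      · exact ⟨b1, b2, b3, b4⟩
      · exact ⟨(f1 c hc).1.trans sdiff_subset, (f1 c hc).2⟩
    · rw [coe_insert]
      exact f2.insert fun c hc _ => (disjoint_sdiff.mono_right (f1 c hc).1)
    · convert f3 using 2
      ext i; simp; tauto

theorem zs {κ : Type} [DecidableEq κ] (J : Finset κ) : ∀ (M : ℕ), 2 ≤ M → ∀ (ι : Type) [DecidableEq ι]
    (s : Finset ι) (v : ι → κ → ℤ), (∀ i ∈ s, ∀ j ∈ J, |v i j| ≤ M) →
    (∀ j ∈ J, |∑ i ∈ s, v i j| ≤ M) → M ^ 7 ^ (J.card + 1) < s.card →
    ∃ t ⊆ s, t.Nonempty ∧ ∀ j ∈ J, ∑ i ∈ t, v i j = 0 := by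
  induction J using Finset.induction_on with
  | empty => intro M _ ι _ s v _ _ h; exact ⟨s, subset_rfl, card_pos.1 (by omega), by simp⟩
  | insert j0 J hj ih =>
    intro M hM ι _ s v h1 h2 h3
    obtain ⟨F, f1, f2, f3⟩ := blocks M hM (fun i => v i j0) s.card s
      (fun i hi => h1 i hi _ (mem_insert_self _ _)) (h2 _ (mem_insert_self _ _)) le_rfl
    have hs : F.biUnion id ⊆ s := biUnion_subset.2 fun b hb => (f1 b hb).1
    have bd : ∀ (b : Finset ι), b ⊆ s → ∀ j ∈ J, |∑ i ∈ b, v i j| ≤ b.card * M := fun b hb j hj =>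
      (abs_sum_le_sum_abs _ _).trans ((sum_le_card_nsmul _ _ (M : ℤ) fun i hi =>
        h1 i (hb hi) j (mem_insert_of_mem hj)).trans (by simp))
    have m1 : 2 * M * M ≤ M ^ 6 := by
      calc 2 * M * M ≤ M * M * M := by gcongr
        _ = M ^ 3 := by ring
        _ ≤ _ := Nat.pow_le_pow_right (by omega) (by omega)
    have m2 : M + M ^ 4 * M ≤ M ^ 6 := by
      have : M ≤ M ^ 5 := Nat.le_self_pow (by omega) _
      have : 2 * M ^ 5 ≤ M * M ^ 5 := by gcongr
      calc M + M ^ 4 * M = M + M ^ 5 := by ring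
        _ ≤ M * M ^ 5 := by omega
        _ = _ := by ring
    obtain ⟨t, t1, t2, t3⟩ := ih (M ^ 6) (hM.trans (Nat.le_self_pow (by omega) _)) (Finset ι) F
      (fun b j => ∑ i ∈ b, v i j)
      (fun b hb j hj => (bd b (f1 b hb).1 j hj).trans (by
        have := Nat.mul_le_mul_right M (f1 b hb).2.2.1
        exact_mod_cast this.trans m1))
      (fun j hj => by
        have e := sum_biUnion (f := fun i => v i j) f2
        simp only [id] at e
        rw [← e]
        have e2 := sum_sdiff (f := fun i => v i j) hs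
        have e3 := abs_le.1 (bd (s \ F.biUnion id) sdiff_subset j hj)
        have e4 := abs_le.1 (h2 j (mem_insert_of_mem hj))
        have e5 : (((s \ F.biUnion id).card * M : ℕ) : ℤ) + M ≤ ((M ^ 6 : ℕ) : ℤ) := by
          have := Nat.mul_le_mul_right M f3
          exact_mod_cast (by omega)
        push_cast at e5 ⊢
        change |∑ i ∈ F.biUnion id, v i j| ≤ _
        rw [abs_le]; constructor <;> linarith [e3.1, e3.2, e4.1, e4.2])
      (by
        by_contra hc
        have e1 : (F.biUnion id).card ≤ F.card * (2 * M) :=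
          card_biUnion_le.trans ((sum_le_card_nsmul _ _ _ fun b hb => (f1 b hb).2.2.1).trans (by simp))
        have e2 := card_sdiff_add_card_eq_card hs
        rw [card_insert_of_notMem hj] at h3
        obtain ⟨e, he⟩ : ∃ e, e = 7 ^ (J.card + 1) := ⟨_, rfl⟩
        have he7 : 7 ≤ e := by rw [he]; exact Nat.le_self_pow (by omega) _
        rw [pow_succ 7 (J.card + 1), ← he] at h3
        rw [← he, ← pow_mul] at hc
        have e3 : F.card * (2 * M) ≤ M ^ (6 * e) * (M * M) :=
          Nat.mul_le_mul (by omega) (Nat.mul_le_mul_right _ hM)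
        have e4 : M ^ (6 * e) * (M * M) = M ^ (6 * e + 2) := by ring
        have e5 : M ^ 4 ≤ M ^ (6 * e + 2) := Nat.pow_le_pow_right (by omega) (by omega)
        have e6 : 2 * M ^ (6 * e + 2) ≤ M ^ (6 * e + 3) := by
          rw [pow_succ M (6 * e + 2), mul_comm]; gcongr
        have e7 : M ^ (6 * e + 3) ≤ M ^ (e * 7) := Nat.pow_le_pow_right (by omega) (by omega)
        omega)
    refine ⟨t.biUnion id, biUnion_subset.2 fun b hb => (f1 b (t1 hb)).1, ?_, ?_⟩
    · obtain ⟨b, hb⟩ := t2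
      obtain ⟨i, hi⟩ := (f1 b (t1 hb)).2.1
      exact ⟨i, mem_biUnion.2 ⟨b, hb, hi⟩⟩
    · intro j hj'
      rw [sum_biUnion (f2.subset (coe_subset.2 t1))]
      rcases mem_insert.1 hj' with rfl | hj'
      · exact sum_eq_zero fun b hb => (f1 b (t1 hb)).2.2.2
      · exact t3 j hj'

section
variable {ρ κ : Type} [DecidableEq ρ] [DecidableEq κ] (Rs : List ρ) (J : Finset κ) (v : ρ → κ → ℤ)
  (w : ℕ → ρ → ℝ)

def W (m : ℕ) (x : ℕ → ρ) : ℝ := ∑ p ∈ range m, w p (x p)

def Feas (m : ℕ) (x : ℕ → ρ) : Prop :=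
  (∀ p < m, x p ∈ Rs) ∧ ∀ j ∈ J, ∑ p ∈ range m, v (x p) j = 0

def Opt (m : ℕ) (x : ℕ → ρ) : Prop :=
  Feas Rs J v m x ∧ ∀ z, Feas Rs J v m z → W w m z ≤ W w m x

omit [DecidableEq ρ] in
theorem sum_piece {A : Type} [AddCommGroup A] (F : ℕ → ρ → A) {m : ℕ} {t : Finset ℕ}
    (ht : t ⊆ range m) (x y : ℕ → ρ) :
    ∑ p ∈ range m, F p (if p ∈ t then y p else x p) =
      ∑ p ∈ range m, F p (x p) + ∑ p ∈ t, (F p (y p) - F p (x p)) := by
  rw [← sum_subset ht (f := fun p => if p ∈ t then F p (y p) - F p (x p) else 0)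
    (fun p _ h => by simp [h]) |>.symm.trans (sum_congr rfl fun p hp => by simp [hp]),
    ← sum_add_distrib]
  refine sum_congr rfl fun p _ => ?_
  split_ifs <;> simp

variable {Rs J v w}

theorem sens (hv : ∀ r, ∀ j ∈ J, |v r j| ≤ 1) {m : ℕ} {x : ℕ → ρ} (hx : Opt Rs J v w m x) (k : ℕ) :
    ∀ y, Feas Rs J v (m + 3) y → ((range m).filter fun p => y p ≠ x p).card ≤ k →
    ∃ y', Feas Rs J v (m + 3) y' ∧ W w (m + 3) y ≤ W w (m + 3) y' ∧
      ((range m).filter fun p => y' p ≠ x p).card ≤ 3 ^ 7 ^ (J.card + 1) := by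
  induction k with
  | zero => intro y hy h; exact ⟨y, hy, le_rfl, h.trans (Nat.zero_le _)⟩
  | succ k ih =>
    intro y hy h
    by_cases hc : ((range m).filter fun p => y p ≠ x p).card ≤ 3 ^ 7 ^ (J.card + 1)
    · exact ⟨y, hy, le_rfl, hc⟩
    obtain ⟨t, t1, t2, t3⟩ := zs J 3 (by omega) ℕ ((range m).filter fun p => y p ≠ x p)
      (fun p j => v (y p) j - v (x p) j)
      (fun p _ j hj => by
        have := abs_le.1 (hv (y p) j hj)
        have := abs_le.1 (hv (x p) j hj)
        rw [abs_le]; constructor <;> push_cast <;> omega)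
      (fun j hj => by
        rw [sum_filter_of_ne (p := fun p => y p ≠ x p) (fun p _ h e => h (by rw [e]; simp)),
          sum_sub_distrib, hx.1.2 j hj]
        have := hy.2 j hj
        simp only [sum_range_succ] at this
        have := abs_le.1 (hv (y m) j hj)
        have := abs_le.1 (hv (y (m + 1)) j hj)
        have := abs_le.1 (hv (y (m + 2)) j hj)
        rw [abs_le]; constructor <;> push_cast <;> omega) (by omega)
    have tm : t ⊆ range m := t1.trans (filter_subset _ _)
    have tm3 : t ⊆ range (m + 3) := tm.trans (range_subset_range.2 (by omega))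
    have a1 : Feas Rs J v m fun p => if p ∈ t then y p else x p := by
      refine ⟨fun p hp => ?_, fun j hj => ?_⟩
      · dsimp only; split_ifs
        exacts [hy.1 p (by omega), hx.1.1 p hp]
      · rw [sum_piece (fun _ r => v r j) tm, hx.1.2 j hj, t3 j hj]; simp
    have a2 := hx.2 _ a1
    unfold W at a2
    rw [sum_piece w tm] at a2
    have a3 : Feas Rs J v (m + 3) fun p => if p ∈ t then x p else y p := by
      refine ⟨fun p hp => ?_, fun j hj => ?_⟩
      · dsimp only; split_ifs with h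
        exacts [hx.1.1 p (mem_range.1 (tm h)), hy.1 p hp]
      · rw [sum_piece (fun _ r => v r j) tm3, hy.2 j hj]
        have := t3 j hj
        rw [sum_sub_distrib] at this ⊢
        omega
    obtain ⟨y', b1, b2, b3⟩ := ih _ a3 (by
      have : ((range m).filter fun p => (if p ∈ t then x p else y p) ≠ x p) =
          ((range m).filter fun p => y p ≠ x p) \ t := by
        ext p; by_cases hp : p ∈ t <;> simp [hp]
      rw [this]
      have := card_sdiff_add_card_eq_card t1
      have := card_pos.2 t2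
      omega)
    refine ⟨y', b1, le_trans ?_ b2, b3⟩
    unfold W
    rw [sum_piece w tm3]
    rw [sum_sub_distrib] at a2 ⊢
    linarith

def gain (w : ℕ → ρ → ℝ) (r r' : ρ) (p : ℕ) : ℝ := w p r' - w p r

def Bt (w : ℕ → ρ → ℝ) (r r' : ρ) (q p : ℕ) : Prop :=
  gain w r r' p ≤ gain w r r' q ∧ (¬ gain w r r' q ≤ gain w r r' p ∨ q < p)

open Classical in
noncomputable def bet (w : ℕ → ρ → ℝ) (m : ℕ) (x : ℕ → ρ) (p : ℕ) (r' : ρ) : Finset ℕ :=
  (range m).filter fun q => x q = x p ∧ Bt w (x p) r' q p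

theorem mem_bet {m : ℕ} {x : ℕ → ρ} {p q : ℕ} {r' : ρ} :
    q ∈ bet w m x p r' ↔ q < m ∧ x q = x p ∧ Bt w (x p) r' q p := by
  classical
  unfold bet; simp only [mem_filter, mem_range]

theorem bet_lt {m : ℕ} {x : ℕ → ρ} {p q : ℕ} {r' : ρ} (h : q ∈ bet w m x p r') :
    (bet w m x q r').card < (bet w m x p r').card := by
  refine card_lt_card ⟨fun a ha => ?_, fun hh => ?_⟩
  · simp only [mem_bet, Bt] at *
    obtain ⟨-, h1, h2, h3⟩ := h
    obtain ⟨a0, a1, a2, a3⟩ := ha
    rw [h1] at a2 a3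
    refine ⟨a0, a1.trans h1, h2.trans a2, ?_⟩
    rcases h3 with h3 | h3
    · exact Or.inl fun t => h3 (a2.trans t)
    · rcases a3 with a3 | a3
      · exact Or.inl fun t => a3 (t.trans h2)
      · exact Or.inr (a3.trans h3)
  · have := hh h
    simp [mem_bet, Bt] at this

omit [DecidableEq κ] in
theorem exch {m g : ℕ} {x : ℕ → ρ} (hx : ∀ p < m, x p ∈ Rs) (k : ℕ) :
    ∀ y, Feas Rs J v (m + 3) y → ((range m).filter fun p => y p ≠ x p).card ≤ g →
    ∑ p ∈ (range m).filter (fun p => y p ≠ x p), (bet w m x p (y p)).card ≤ k →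
    ∃ y', Feas Rs J v (m + 3) y' ∧ W w (m + 3) y ≤ W w (m + 3) y' ∧
      ∀ p < m, y' p ≠ x p → (bet w m x p (y' p)).card < g := by
  induction k using Nat.strong_induction_on with
  | _ k ih =>
    intro y hy h1 h2
    by_cases hc : ∀ p < m, y p ≠ x p → (bet w m x p (y p)).card < g
    · exact ⟨y, hy, le_rfl, hc⟩
    push Not at hc
    obtain ⟨p, hp, e1, e2⟩ := hc
    have hpD : p ∈ (range m).filter fun p => y p ≠ x p := by simp [hp, e1]
    obtain ⟨q, hq, hq'⟩ : ∃ q ∈ bet w m x p (y p),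
        q ∉ ((range m).filter fun p => y p ≠ x p).erase p := by
      by_contra hh
      push Not at hh
      have := card_le_card (show bet w m x p (y p) ⊆ ((range m).filter fun p => y p ≠ x p).erase p from hh)
      rw [card_erase_of_mem hpD] at this
      have := card_pos.2 ⟨p, hpD⟩
      omega
    have hlt := bet_lt hq
    have hq2 := hq
    rw [mem_bet] at hq2
    obtain ⟨q1, q2, q3⟩ := hq2
    have hqp : q ≠ p := by rintro rfl; simp at hlt
    have hyq : y q = x q := by simpa [hqp, q1] using hq'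
    let z : ℕ → ρ := fun a => if a = p then x p else y p
    have ht : ({p, q} : Finset ℕ) ⊆ range (m + 3) := by
      intro a ha; simp at ha ⊢; omega
    have key : ∀ {A : Type} [AddCommGroup A] (F : ℕ → ρ → A),
        ∑ a ∈ range (m + 3), F a (if a ∈ ({p, q} : Finset ℕ) then z a else y a) =
        ∑ a ∈ range (m + 3), F a (y a) + (F p (x p) - F p (y p) + (F q (y p) - F q (x p))) := by
      intro A _ F
      rw [sum_piece F ht, sum_pair hqp.symm]
      simp [z, hqp, hyq, q2]
    have hD : ((range m).filter fun a => (if a ∈ ({p, q} : Finset ℕ) then z a else y a) ≠ x a) =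
        insert q (((range m).filter fun p => y p ≠ x p).erase p) := by
      ext a
      by_cases a1 : a = p
      · subst a1; simp [z, hqp.symm]
      · by_cases a2 : a = q
        · subst a2; simp [z, hqp, q1, q2, e1]
        · simp [a1, a2]
    refine (ih _ (lt_of_lt_of_le ?_ h2)
      (fun a => if a ∈ ({p, q} : Finset ℕ) then z a else y a) ⟨fun a ha => ?_, fun j hj => ?_⟩ ?_
      le_rfl).imp ?_
    rotate_right
    · rintro y' ⟨b1, b2, b3⟩
      refine ⟨b1, le_trans ?_ b2, b3⟩
      unfold W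
      rw [key w]
      have := q3.1
      unfold gain at this
      linarith
    · rw [hD, sum_insert hq', ← add_sum_erase _ _ hpD]
      have : ∑ a ∈ ((range m).filter fun p => y p ≠ x p).erase p,
          (bet w m x a (if a ∈ ({p, q} : Finset ℕ) then z a else y a)).card =
          ∑ a ∈ ((range m).filter fun p => y p ≠ x p).erase p, (bet w m x a (y a)).card := by
        refine sum_congr rfl fun a ha => ?_
        have a1 : a ≠ p := (mem_erase.1 ha).1
        have a2 : a ≠ q := fun e => hq' (e ▸ ha)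
        simp [a1, a2]
      rw [this]
      simp [z, hqp, hlt]
    · dsimp only [z]; split_ifs
      exacts [hx p hp, hy.1 p (by omega), hy.1 a ha]
    · rw [key (fun _ r => v r j), hy.2 j hj]; simp
    · rw [hD, card_insert_of_notMem hq', card_erase_of_mem hpD]
      have := card_pos.2 ⟨p, hpD⟩
      omega

theorem step_opt (hv : ∀ r, ∀ j ∈ J, |v r j| ≤ 1) {m g : ℕ} {x : ℕ → ρ} (hx : Opt Rs J v w m x)
    (hg : 3 ^ 7 ^ (J.card + 1) ≤ g) (y : ℕ → ρ) (hy : Feas Rs J v (m + 3) y) :
    ∃ y', Feas Rs J v (m + 3) y' ∧ W w (m + 3) y ≤ W w (m + 3) y' ∧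
      ∀ p < m, y' p ≠ x p → (bet w m x p (y' p)).card < g := by
  obtain ⟨y1, a1, a2, a3⟩ := sens hv hx _ y hy le_rfl
  obtain ⟨y2, b1, b2, b3⟩ := exch (w := w) hx.1.1 _ y1 a1 (a3.trans hg) le_rfl
  exact ⟨y2, b1, a2.trans b2, b3⟩

open Classical in
theorem sel_card {m g : ℕ} {x : ℕ → ρ} (hx : ∀ p < m, x p ∈ Rs) :
    ((range m).filter fun p => ∃ r' ∈ Rs, (bet w m x p r').card < g).card ≤
      g * Rs.length * Rs.length := by
  have : ((range m).filter fun p => ∃ r' ∈ Rs, (bet w m x p r').card < g) ⊆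
      (Rs.toFinset ×ˢ Rs.toFinset).biUnion fun r =>
        (range m).filter fun p => x p = r.1 ∧ (bet w m x p r.2).card < g := by
    intro p hp
    simp only [mem_filter, mem_range] at hp
    obtain ⟨h1, r', h2, h3⟩ := hp
    simp only [mem_biUnion, mem_product, List.mem_toFinset, mem_filter, mem_range]
    exact ⟨(x p, r'), ⟨hx p h1, h2⟩, h1, rfl, h3⟩
  refine (card_le_card this).trans (card_biUnion_le.trans ?_)
  refine (sum_le_card_nsmul _ _ g fun r _ => ?_).trans ?_
  · refine (card_le_card_of_injOn (t := range g) (fun p => (bet w m x p r.2).card) ?_ ?_).trans (by simp)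
    · intro p hp
      simp only [coe_filter, mem_range, Set.mem_ofPred_eq] at hp
      simpa using hp.2.2
    · intro p hp q hq e
      simp only [coe_filter, mem_range, Set.mem_ofPred_eq] at hp hq
      by_contra hne
      have e1 : x q = x p := hq.2.1.trans hp.2.1.symm
      have : q ∈ bet w m x p r.2 ∨ p ∈ bet w m x q r.2 := by
        simp only [mem_bet, Bt, e1, hp.1, hq.1, true_and]
        rcases lt_trichotomy (gain w (x p) r.2 p) (gain w (x p) r.2 q) with t | t | t
        · exact Or.inl ⟨t.le, Or.inl (not_le.2 t)⟩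
        · rcases lt_or_gt_of_ne hne with u | u
          · exact Or.inr ⟨t.ge, Or.inr u⟩
          · exact Or.inl ⟨t.le, Or.inr u⟩
        · exact Or.inr ⟨t.le, Or.inl (not_le.2 t)⟩
      dsimp only at e
      rcases this with t | t <;> have := bet_lt t <;> omega
  · rw [card_product, smul_eq_mul]
    have := List.toFinset_card_le Rs
    calc _ ≤ Rs.length * Rs.length * g := by gcongr
      _ = _ := by ring

end

end Pool.Agent.H.MP_95c4c5_lc
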