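import Pool.Agent.H.MP_95c4c5_lc.Defs
import Pool.Agent.Lib.helper26.CXFpt

set_option autoImplicit false

namespace Pool.Agent.H.MP_95c4c5_lc
open Pool.Agent.Lib.CX

abbrev LU := List Unit
abbrev Sg := Bool × ℕ
abbrev Ty := Sg × Sg × Sg
abbrev Ro := Ty × ℕ
abbrev Key := Ro × Ro × ℕ × ℕ
abbrev Mem := LU × LU × List (List Key × List Ro)

instance : DecidableEq Ro := inferInstance
instance : DecidableEq Key := inferInstance

def sgs (F : LU) : List Sg := [true, false] ×ˢ List.range F.length
def tys (F : LU) : List Ty := sgs F ×ˢ sgs F ×ˢ sgs F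
def ros (F : LU) : List Ro := tys F ×ˢ [0, 1, 2]
def r0 : Ro := (((true, 0), (true, 0), (true, 0)), 0)
def pl (r : Ro) : Sg := if r.2 = 0 then r.1.1 else if r.2 = 1 then r.1.2.1 else r.1.2.2
def mi (r : Ro) : Sg := if r.2 = 0 then r.1.2.2 else if r.2 = 1 then r.1.1 else r.1.2.1
def qw (p : ℕ) (r : Ro) : Qry := [((pl r).1, (pl r).2, p), (!(mi r).1, (mi r).2, p)]
def ng (q : Qry) : Qry := q.map fun t => (!t.1, t.2)
def keys (F N : LU) : List Key :=
  ros F ×ˢ ros F ×ˢ List.range (3 * N.length) ×ˢ List.range (3 * N.length)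
def qk (k : Key) : Qry :=
  (qw k.2.2.1 k.2.1 ++ ng (qw k.2.2.1 k.1)) ++ ng (qw k.2.2.2 k.2.1 ++ ng (qw k.2.2.2 k.1))
def mkT (F N : LU) (h : List Bool) : List Key := (((keys F N).zip h).filter fun z => z.2).map fun z => z.1
def mT (T : List Key) (k : Key) : Bool := T.any fun z => decide (z = k)
def rk (T : List Key) (x : List Ro) (p : ℕ) (r' : Ro) : ℕ :=
  (List.range x.length).countP fun q => decide (x.getD q r0 = x.getD p r0) &&
    (mT T (x.getD p r0, r', q, p) && (!mT T (x.getD p r0, r', p, q) || decide (q < p)))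
def sl (F : LU) (T : List Key) (x : List Ro) (A : LU) : List ℕ :=
  ((List.range x.length).filter fun p => decide (∃ r' ∈ ros F, rk T x p r' < A.length)) ++
    [x.length, x.length + 1, x.length + 2]
def tstep (F C : LU) (ts : List (List Ro)) : List (List Ro) :=
  ((ros F ×ˢ ts).map fun z => z.1 :: z.2).take C.length
def tups (F C : LU) (l : List ℕ) : List (List Ro) := (tstep F C)^[l.length] [[]]
def mkc (x : List Ro) (l : List ℕ) (t : List Ro) : List Ro :=
  (List.range (x.length + 3)).map fun p => if p ∈ l then t.getD (l.idxOf p) r0 else x.getD p r0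
def bal (F : LU) (y : List Ro) : Bool :=
  decide (∀ τ ∈ tys F, y.count (τ, 0) = y.count (τ, 1) ∧ y.count (τ, 0) = y.count (τ, 2))
def cands (F : LU) (T : List Key) (x : List Ro) (A C : LU) : List (List Ro) :=
  ((tups F C (sl F T x A)).map fun t => mkc x (sl F T x A) t).filter fun y => bal F y
def qW (y : List Ro) : Qry := (List.range y.length).flatMap fun p => qw p (y.getD p r0)
def qs (c : List (List Ro)) : List Qry := (c ×ˢ c).map fun z => qW z.1 ++ ng (qW z.2)
def pick (c : List (List Ro)) (h : List Bool) : List Ro :=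
  (c.filter fun y => ((c ×ˢ c).zip h).all fun z => !decide (z.1.1 = y) || z.2).headD []
def idx (x : List Ro) (r : Ro) : List ℕ := (List.range x.length).filter fun p => decide (x.getD p r0 = r)
def tri (F : LU) (x : List Ro) : Tri :=
  (tys F).flatMap fun τ => (idx x (τ, 0)).zip ((idx x (τ, 1)).zip (idx x (τ, 2)))
def nxt (s : Mem) (h : List Bool) (A C : LU) : List Key × List Ro :=
  if s.2.2.length = 2 then (mkT s.1 s.2.1 h, []) else
    ((s.2.2.headD ([], [])).1,
      pick (cands s.1 (s.2.2.headD ([], [])).1 (s.2.2.headD ([], [])).2 A C) h)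
def fin (F N : LU) (u : List Key × List Ro) (A C : LU) : Mem × List Qry × Option Tri :=
  if 3 * N.length ≤ u.2.length then ((F, N, []), [], some (tri F u.2)) else
    ((F, N, [u]), qs (cands F u.1 u.2 A C), none)
def main (s : Mem) (h : List Bool) (A C : LU) : Mem × List Qry × Option Tri :=
  if s.2.2.length = 0 then ((s.1, s.2.1, [([], []), ([], [])]), (keys s.1 s.2.1).map qk, none) else
    fin s.1 s.2.1 (nxt s h A C) A C

section
variable {α : Type} [Enc α]
attribute [local irreducible] PT PB

@[fun_prop] theorem pt_sgs {F : α → LU} (hF : PT F) : PT fun a => sgs (F a) := by unfold sgs; fun_prop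
@[fun_prop] theorem pt_tys {F : α → LU} (hF : PT F) : PT fun a => tys (F a) := by unfold tys; fun_prop
@[fun_prop] theorem pt_ros {F : α → LU} (hF : PT F) : PT fun a => ros (F a) := by unfold ros; fun_prop
@[fun_prop] theorem pt_pl {r : α → Ro} (hr : PT r) : PT fun a => pl (r a) := by unfold pl; fun_prop
@[fun_prop] theorem pt_mi {r : α → Ro} (hr : PT r) : PT fun a => mi (r a) := by unfold mi; fun_prop
@[fun_prop] theorem pt_qw {p : α → ℕ} {r : α → Ro} (hp : PT p) (hr : PT r) :
    PT fun a => qw (p a) (r a) := by unfold qw; fun_prop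
@[fun_prop] theorem pt_ng {q : α → Qry} (hq : PT q) : PT fun a => ng (q a) := by unfold ng; fun_prop
@[fun_prop] theorem pt_keys {F N : α → LU} (hF : PT F) (hN : PT N) : PT fun a => keys (F a) (N a) := by
  unfold keys; fun_prop
@[fun_prop] theorem pt_qk {k : α → Key} (hk : PT k) : PT fun a => qk (k a) := by unfold qk; fun_prop
@[fun_prop] theorem pt_mkT {F N : α → LU} {h : α → List Bool} (hF : PT F) (hN : PT N) (hh : PT h) :
    PT fun a => mkT (F a) (N a) (h a) := by unfold mkT; fun_prop
@[fun_prop] theorem pt_mT {T : α → List Key} {k : α → Key} (hT : PT T) (hk : PT k) :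
    PT fun a => mT (T a) (k a) := by unfold mT; fun_prop
@[fun_prop] theorem pt_rk {T : α → List Key} {x : α → List Ro} {p : α → ℕ} {r : α → Ro} (hT : PT T)
    (hx : PT x) (hp : PT p) (hr : PT r) : PT fun a => rk (T a) (x a) (p a) (r a) := by
  unfold rk; fun_prop
@[fun_prop] theorem pt_sl {F A : α → LU} {T : α → List Key} {x : α → List Ro} (hF : PT F) (hT : PT T)
    (hx : PT x) (hA : PT A) : PT fun a => sl (F a) (T a) (x a) (A a) := by
  unfold sl; fun_prop
@[fun_prop] theorem pt_tstep {F C : α → LU} {t : α → List (List Ro)} (hF : PT F) (hC : PT C)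
    (ht : PT t) : PT fun a => tstep (F a) (C a) (t a) := by unfold tstep; fun_prop

theorem tstep_inv (F C : LU) (k : ℕ) : ((tstep F C)^[k] [[]]).length ≤ C.length + 1 ∧
    ∀ t ∈ (tstep F C)^[k] [[]], t.length = k ∧ ∀ r ∈ t, r ∈ ros F := by
  induction k with
  | zero => simp
  | succ k ih =>
    rw [Function.iterate_succ_apply']
    refine ⟨by simp [tstep], fun t ht => ?_⟩
    obtain ⟨⟨r, u⟩, h1, rfl⟩ := List.mem_map.1 (List.mem_of_mem_take ht)
    rw [List.mem_product] at h1
    have := ih.2 u h1.2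
    refine ⟨by simp [this.1], fun r' hr' => ?_⟩
    rcases List.mem_cons.1 hr' with rfl | h
    exacts [h1.1, this.2 _ h]

theorem size_ros_list {F : LU} {t : List Ro} (h : ∀ r ∈ t, r ∈ ros F) :
    size t ≤ t.length * (size (ros F) + 1) + 2 := size_list_le fun r hr => size_mem (h r hr)

@[fun_prop] theorem pt_tups {F C : α → LU} {l : α → List ℕ} (hF : PT F) (hC : PT C) (hl : PT l) :
    PT fun a => tups (F a) (C a) (l a) := by
  unfold tups
  refine PT.iterate (F := fun a ts => tstep (F a) (C a) ts)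
    (B := fun a => ((C a).length + 1) * ((l a).length * (size (ros (F a)) + 1) + 2 + 1) + 2)
    (by fun_prop) (by fun_prop) (by fun_prop) (by fun_prop) (by fun_prop) fun a k hk => ?_
  have h := tstep_inv (F a) (C a) k
  refine (size_list_le (B := (l a).length * (size (ros (F a)) + 1) + 2) fun t ht => ?_).trans ?_
  · have := size_ros_list (h.2 t ht).2
    rw [(h.2 t ht).1] at this
    exact this.trans (by gcongr)
  · have := h.1
    gcongr

@[fun_prop] theorem pt_mkc {x t : α → List Ro} {l : α → List ℕ} (hx : PT x) (hl : PT l) (ht : PT t) :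
    PT fun a => mkc (x a) (l a) (t a) := by unfold mkc; fun_prop
@[fun_prop] theorem pt_bal {F : α → LU} {y : α → List Ro} (hF : PT F) (hy : PT y) :
    PT fun a => bal (F a) (y a) := by unfold bal; fun_prop
@[fun_prop] theorem pt_cands {F A C : α → LU} {T : α → List Key} {x : α → List Ro} (hF : PT F)
    (hT : PT T) (hx : PT x) (hA : PT A) (hC : PT C) :
    PT fun a => cands (F a) (T a) (x a) (A a) (C a) := by unfold cands; fun_prop
@[fun_prop] theorem pt_qW {y : α → List Ro} (hy : PT y) : PT fun a => qW (y a) := by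
  unfold qW; fun_prop
@[fun_prop] theorem pt_qs {c : α → List (List Ro)} (hc : PT c) : PT fun a => qs (c a) := by
  unfold qs; fun_prop
@[fun_prop] theorem pt_pick {c : α → List (List Ro)} {h : α → List Bool} (hc : PT c) (hh : PT h) :
    PT fun a => pick (c a) (h a) := by unfold pick; fun_prop
@[fun_prop] theorem pt_idx {x : α → List Ro} {r : α → Ro} (hx : PT x) (hr : PT r) :
    PT fun a => idx (x a) (r a) := by unfold idx; fun_prop
@[fun_prop] theorem pt_tri {F : α → LU} {x : α → List Ro} (hF : PT F) (hx : PT x) :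
    PT fun a => tri (F a) (x a) := by unfold tri; fun_prop
attribute [local irreducible] mkT pick cands qs tri keys qk
@[fun_prop] theorem pt_nxt {s : α → Mem} {h : α → List Bool} {A C : α → LU} (hs : PT s) (hh : PT h)
    (hA : PT A) (hC : PT C) : PT fun a => nxt (s a) (h a) (A a) (C a) := by unfold nxt; fun_prop
@[fun_prop] theorem pt_fin {F N A C : α → LU} {u : α → List Key × List Ro} (hF : PT F) (hN : PT N)
    (hu : PT u) (hA : PT A) (hC : PT C) : PT fun a => fin (F a) (N a) (u a) (A a) (C a) := by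
  unfold fin; fun_prop
attribute [local irreducible] nxt fin
@[fun_prop] theorem pt_main {s : α → Mem} {h : α → List Bool} {A C : α → LU} (hs : PT s) (hh : PT h)
    (hA : PT A) (hC : PT C) : PT fun a => main (s a) (h a) (A a) (C a) := by unfold main; fun_prop

end

def KK (f : ℕ) : ℕ := 2 * 7 ^ (16 * f ^ 3 + 1) + 72 * f ^ 3 + 2
def pA (f : ℕ) : LU := List.replicate (2 ^ KK f) ()
def pC (f : ℕ) : LU := List.replicate (2 ^ 4 ^ KK f) ()

theorem size_rep (k : ℕ) : size (List.replicate k ()) = 3 * k + 2 := by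
  induction k with
  | zero => rfl
  | succ k ih => rw [List.replicate_succ, size_cons, ih, size_unit]; omega

theorem prog : ∃ (p : Prog) (r : Polynomial ℕ), ∀ (s : Mem) (h : List Bool) (B : ℕ),
    size (s, h) + 9 * 2 ^ 4 ^ KK s.1.length + 20 ≤ B →
    R p (enc (s, h)) (enc (main s h (pA s.1.length) (pC s.1.length))) (r.eval B) := by
  let g : (Mem × List Bool) × ℕ × LU × LU → (Mem × List Bool) × ℕ × LU × LU := fun z =>
    (z.1, z.2.1 + 1, z.2.2.1 ++ z.2.2.1, (z.2.2.2 ×ˢ z.2.2.2 ×ˢ z.2.2.2 ×ˢ z.2.2.2).map fun _ => ())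
  obtain ⟨p, r, hr⟩ := loopT (g := g) (c := fun z => decide (z.2.1 < KK z.1.1.1.length))
    (i := fun a : Mem × List Bool => (a, 0, [()], [(), ()]))
    (o := fun z => main z.1.1 z.1.2 z.2.2.1 z.2.2.2) (by unfold g; fun_prop) (by unfold KK; fun_prop)
    (by fun_prop) (by fun_prop)
  have e : ∀ (a : Mem × List Bool) (j : ℕ), g^[j] (a, 0, [()], [(), ()]) =
      (a, j, List.replicate (2 ^ j) (), List.replicate (2 ^ 4 ^ j) ()) := by
    intro a j
    induction j with
    | zero => rfl
    | succ j ih =>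
      rw [Function.iterate_succ_apply', ih]
      simp only [g, List.map_const', List.length_product, List.length_replicate,
        List.replicate_append_replicate]
      congr 4
      · ring
      · rw [← pow_add, ← pow_add, ← pow_add]; congr 1; ring
  refine ⟨p, r, fun s h B hB => ?_⟩
  have b1 : ∀ j, j ≤ 2 ^ 4 ^ j ∧ 2 ^ j ≤ 2 ^ 4 ^ j := fun j => by
    have : j ≤ 4 ^ j := (Nat.lt_pow_self (by omega)).le
    have h2 : 2 ^ j ≤ 2 ^ 4 ^ j := Nat.pow_le_pow_right (by omega) this
    exact ⟨Nat.lt_two_pow_self.le.trans h2, h2⟩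
  have := hr (s, h) B (KK s.1.length) (by have := b1 (KK s.1.length); omega) (by omega)
    (fun j hj => by simp [e, hj]) (by simp [e]) (fun j hj => by
      rw [e, size_pair (s, h), size_pair j, size_pair (List.replicate _ ()), size_rep, size_rep]
      have := size_nat_le j
      have := b1 j
      have : 2 ^ 4 ^ j ≤ 2 ^ 4 ^ KK s.1.length :=
        Nat.pow_le_pow_right (by omega) (Nat.pow_le_pow_right (by omega) hj)
      omega)
  rwa [e] at this

end Pool.Agent.H.MP_95c4c5_lc
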