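import Pool.Agent.H.MP_95c4c5_lc.A
import Pool.Agent.H.MP_95c4c5_lc.B

set_option autoImplicit false

namespace Pool.Agent.H.MP_95c4c5_lc
open Pool.Agent.Lib.CX

def fn (y : List Ro) (p : ℕ) : Ro := y.getD p r0
def JJ (F : LU) : Finset (Ty × ℕ) := (tys F).toFinset ×ˢ {1, 2}
def vv (r : Ro) (j : Ty × ℕ) : ℤ := (if r = (j.1, 0) then 1 else 0) - (if r = j then 1 else 0)

theorem vv_le (r : Ro) (j : Ty × ℕ) : |vv r j| ≤ 1 := by
  unfold vv; split_ifs <;> simp

theorem sum_fn {A : Type} [AddCommMonoid A] (G : Ro → A) (y : List Ro) :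
    ∑ p ∈ Finset.range y.length, G (fn y p) = (y.map G).sum := by
  induction y with
  | nil => simp
  | cons r y ih => rw [List.length_cons, Finset.sum_range_succ', List.map_cons, List.sum_cons, ← ih, add_comm]; rfl

theorem count_fn (y : List Ro) (r : Ro) :
    ∑ p ∈ Finset.range y.length, (if fn y p = r then (1 : ℤ) else 0) = y.count r := by
  rw [sum_fn (fun z => if z = r then (1 : ℤ) else 0)]
  induction y with
  | nil => simp
  | cons z y ih => rw [List.map_cons, List.sum_cons, ih, List.count_cons]; by_cases h : z = r <;> simp [h, add_comm]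

theorem bal_iff (F : LU) (y : List Ro) :
    bal F y = true ↔ ∀ j ∈ JJ F, ∑ p ∈ Finset.range y.length, vv (fn y p) j = 0 := by
  simp only [bal, decide_eq_true_eq, vv, Finset.sum_sub_distrib, count_fn, JJ, Finset.mem_product,
    List.mem_toFinset, Finset.mem_insert, Finset.mem_singleton]
  constructor
  · rintro h ⟨τ, i⟩ ⟨h1, h2⟩
    have := h τ h1
    rcases h2 with h2 | h2 <;> simp only at h2 <;> subst h2 <;> simp only <;> omega
  · intro h τ hτ
    have h1 := h (τ, 1) ⟨hτ, Or.inl rfl⟩
    have h2 := h (τ, 2) ⟨hτ, Or.inr rfl⟩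
    simp only at h1 h2
    omega

theorem fn_mem {y : List Ro} {p : ℕ} (h : p < y.length) : fn y p ∈ y := by
  simp [fn, h]

theorem len_tys (F : LU) : (tys F).length = 8 * F.length ^ 3 := by
  simp [tys, sgs, List.length_product]; ring

theorem len_ros (F : LU) : (ros F).length = 24 * F.length ^ 3 := by
  simp [ros, List.length_product, len_tys]; ring

theorem card_JJ (F : LU) : (JJ F).card ≤ 16 * F.length ^ 3 := by
  have := List.toFinset_card_le (tys F)
  rw [JJ, Finset.card_product, Finset.card_pair (by omega)]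
  rw [len_tys] at this
  omega

theorem zip_map_self {β γ : Type} (l : List β) (g : β → γ) : l.zip (l.map g) = l.map fun k => (k, g k) := by
  induction l with
  | nil => rfl
  | cons x l ih => simp [ih]

theorem tups_all (F C : LU) (k : ℕ) (hk : (ros F).length ^ k ≤ C.length) (hR : 0 < (ros F).length) :
    ((tstep F C)^[k] [[]]).length ≤ (ros F).length ^ k ∧
    ∀ t : List Ro, t.length = k → (∀ r ∈ t, r ∈ ros F) → t ∈ (tstep F C)^[k] [[]] := by
  induction k with
  | zero => simp
  | succ k ih =>
    obtain ⟨h1, h2⟩ := ih ((Nat.pow_le_pow_right hR (by omega)).trans hk)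
    rw [Function.iterate_succ_apply']
    have e : ((ros F ×ˢ (tstep F C)^[k] [[]]).map fun z => z.1 :: z.2).length ≤ (ros F).length ^ (k + 1) := by
      rw [List.length_map, List.length_product, pow_succ']
      exact Nat.mul_le_mul_left _ h1
    rw [tstep, List.take_of_length_le (e.trans hk)]
    refine ⟨e, fun t ht hr => ?_⟩
    cases t with
    | nil => simp at ht
    | cons r t =>
      exact List.mem_map.2 ⟨(r, t), List.mem_product.2 ⟨hr r (by simp),
        h2 t (by simpa using ht) fun r' h => hr r' (by simp [h])⟩, rfl⟩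

theorem fn_mkc (x : List Ro) (l : List ℕ) (t : List Ro) {p : ℕ} (hp : p < x.length + 3) :
    fn (mkc x l t) p = if p ∈ l then t.getD (l.idxOf p) r0 else fn x p := by
  simp [fn, mkc, hp]

theorem len_mkc (x : List Ro) (l : List ℕ) (t : List Ro) : (mkc x l t).length = x.length + 3 := by
  simp [mkc]

theorem lt_of_not_sl {F A : LU} {T : List Key} {x : List Ro} {p : ℕ} (hp : p < x.length + 3)
    (h : p ∉ sl F T x A) : p < x.length := by
  simp only [sl, List.mem_append, List.mem_cons, not_or] at h
  omega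

theorem cands_ok {F A C : LU} {T : List Key} {x y : List Ro} (hx : ∀ p < x.length, fn x p ∈ ros F)
    (hy : y ∈ cands F T x A C) :
    y.length = x.length + 3 ∧ Feas (ros F) (JJ F) vv (x.length + 3) (fn y) := by
  obtain ⟨h1, h2⟩ := List.mem_filter.1 hy
  obtain ⟨t, ht, rfl⟩ := List.mem_map.1 h1
  have h3 := (tstep_inv F C _).2 t ht
  refine ⟨len_mkc _ _ _, fun p hp => ?_, by rw [← len_mkc x (sl F T x A) t]; exact (bal_iff _ _).1 h2⟩
  rw [fn_mkc _ _ _ hp]
  split_ifs with h
  · exact h3.2 _ (fn_mem (y := t) (by rw [h3.1]; exact List.idxOf_lt_length_of_mem h))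
  · exact hx p (lt_of_not_sl hp h)

theorem cands_len (F A C : LU) (T : List Key) (x : List Ro) :
    (cands F T x A C).length ≤ C.length + 1 :=
  (List.length_filter_le _ _).trans (by rw [List.length_map]; exact (tstep_inv F C _).1)

section
variable {s : ℕ} (a P : ℕ → Fin s → ℝ)

noncomputable def val (q : Qry) : ℝ :=
  (q.map fun t => (if t.1 then 1 else -1) * (a t.2.1 ⬝ᵥ P t.2.2)).sum

theorem ans_iff (q : Qry) : ans a P q = true ↔ 0 ≤ val a P q := by simp [ans, val]

theorem val_append (q q' : Qry) : val a P (q ++ q') = val a P q + val a P q' := by simp [val]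

theorem val_ng (q : Qry) : val a P (ng q) = - val a P q := by
  induction q with
  | nil => simp [val, ng]
  | cons t q ih =>
    simp only [val, ng, List.map_cons, List.sum_cons] at ih ⊢
    rw [ih]; cases t.1 <;> simp <;> ring

noncomputable def ww (p : ℕ) (r : Ro) : ℝ := val a P (qw p r)

theorem val_qW (y : List Ro) : val a P (qW y) = W (ww a P) y.length (fn y) := by
  unfold qW W
  generalize y.length = m
  induction m with
  | zero => simp [val]
  | succ m ih => rw [List.range_succ, List.flatMap_append, val_append, ih, Finset.sum_range_succ]; simp [ww, fn]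

noncomputable def T0 (F N : LU) : List Key := mkT F N (((keys F N).map qk).map (ans a P))

theorem mT_T0 {F N : LU} {r r' : Ro} {q p : ℕ} (hr : r ∈ ros F) (hr' : r' ∈ ros F)
    (hq : q < 3 * N.length) (hp : p < 3 * N.length) :
    mT (T0 a P F N) (r, r', q, p) = true ↔ gain (ww a P) r r' p ≤ gain (ww a P) r r' q := by
  have hk : (r, r', q, p) ∈ keys F N := by simp [keys, hr, hr', hq, hp]
  have e : ans a P (qk (r, r', q, p)) = true ↔ gain (ww a P) r r' p ≤ gain (ww a P) r r' q := by
    rw [ans_iff]; simp only [qk, val_append, val_ng, gain, ww]; constructor <;> intro h <;> linarith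
  rw [← e, T0, mkT, List.map_map, zip_map_self]
  simp only [mT, List.any_eq_true, decide_eq_true_eq, exists_eq_right, List.mem_map, List.mem_filter]
  constructor
  · rintro ⟨_, ⟨⟨k, -, rfl⟩, h⟩, rfl⟩; exact h
  · intro h; exact ⟨_, ⟨⟨_, hk, rfl⟩, h⟩, rfl⟩

theorem rk_eq {F N : LU} {x : List Ro} (hx : ∀ p < x.length, fn x p ∈ ros F)
    (hl : x.length ≤ 3 * N.length) {p : ℕ} (hp : p < x.length) {r' : Ro} (hr' : r' ∈ ros F) :
    rk (T0 a P F N) x p r' = (bet (ww a P) x.length (fn x) p r').card := by
  rw [rk, List.countP_eq_length_filter, ← List.toFinset_card_of_nodup (List.nodup_range.filter _)]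
  congr 1
  ext q
  rw [mem_bet, List.mem_toFinset, List.mem_filter, List.mem_range]
  refine and_congr_right fun hq => ?_
  have h1 := mT_T0 a P (hx p hp) hr' (hq.trans_le hl) (hp.trans_le hl)
  have h2 := mT_T0 a P (hx p hp) hr' (hp.trans_le hl) (hq.trans_le hl)
  rw [Bt, ← h1, ← h2]
  simp [fn]

def OptL (F : LU) (y : List Ro) : Prop := Opt (ros F) (JJ F) vv (ww a P) y.length (fn y)

theorem pick_max (c : List (List Ro)) (hc : c ≠ []) :
    pick c ((qs c).map (ans a P)) ∈ c ∧
      ∀ y ∈ c, val a P (qW y) ≤ val a P (qW (pick c ((qs c).map (ans a P)))) := by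
  have e : ∀ y, (((c ×ˢ c).zip ((qs c).map (ans a P))).all fun z => !decide (z.1.1 = y) || z.2) = true ↔
      ∀ y' ∈ c, y ∈ c → val a P (qW y') ≤ val a P (qW y) := by
    intro y
    rw [qs, List.map_map, zip_map_self]
    simp only [List.all_map, List.all_eq_true, Function.comp, Bool.or_eq_true, Bool.not_eq_true',
      decide_eq_false_iff_not, ans_iff, val_append, val_ng]
    constructor
    · intro h y' h1 h2
      have := h (y, y') (List.mem_product.2 ⟨h2, h1⟩)
      simp at this; exact this
    · rintro h ⟨y1, y2⟩ hz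
      rw [List.mem_product] at hz
      by_cases e : y1 = y
      · subst e; right; have := h y2 hz.2 hz.1; simpa using this
      · exact Or.inl e
  obtain ⟨y0, h0, h1⟩ := c.toFinset.exists_max_image (fun y => val a P (qW y)) (by simpa using hc)
  have hm : y0 ∈ c.filter fun y => ((c ×ˢ c).zip ((qs c).map (ans a P))).all
      fun z => !decide (z.1.1 = y) || z.2 :=
    List.mem_filter.2 ⟨by simpa using h0, (e y0).2 fun y' h _ => h1 y' (by simpa using h)⟩
  have : pick c ((qs c).map (ans a P)) ∈ c.filter fun y => ((c ×ˢ c).zip ((qs c).map (ans a P))).all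
      fun z => !decide (z.1.1 = y) || z.2 := by
    unfold pick
    revert hm
    generalize List.filter _ c = l
    cases l <;> simp
  obtain ⟨h2, h3⟩ := List.mem_filter.1 this
  exact ⟨h2, fun y hy => (e _).1 h3 y hy h2⟩

theorem feas_congr {F : LU} {m : ℕ} {x y : ℕ → Ro} (h : ∀ p < m, x p = y p)
    (hx : Feas (ros F) (JJ F) vv m x) : Feas (ros F) (JJ F) vv m y :=
  ⟨fun p hp => h p hp ▸ hx.1 p hp, fun j hj => by
    rw [← hx.2 j hj]; exact Finset.sum_congr rfl fun p hp => by rw [h p (Finset.mem_range.1 hp)]⟩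

theorem step {F N A C : LU} (hF : 0 < F.length) {x : List Ro} (hx : OptL a P F x)
    (hl : x.length ≤ 3 * N.length) (hA : 3 ^ 7 ^ ((JJ F).card + 1) ≤ A.length)
    (hC : (ros F).length ^ (A.length * (ros F).length * (ros F).length + 3) ≤ C.length) :
    (pick (cands F (T0 a P F N) x A C) ((qs (cands F (T0 a P F N) x A C)).map (ans a P))).length =
      x.length + 3 ∧
    OptL a P F (pick (cands F (T0 a P F N) x A C) ((qs (cands F (T0 a P F N) x A C)).map (ans a P))) := by
  classical
  have hR : 0 < (ros F).length := by rw [len_ros]; positivity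
  have hsl : (sl F (T0 a P F N) x A).length ≤ A.length * (ros F).length * (ros F).length + 3 := by
    rw [sl, List.length_append, ← List.toFinset_card_of_nodup (List.nodup_range.filter _)]
    refine Nat.add_le_add (le_trans (Finset.card_le_card ?_) (sel_card (w := ww a P) hx.1.1)) (by simp)
    intro p hp
    simp only [List.mem_toFinset, List.mem_filter, List.mem_range, decide_eq_true_eq] at hp
    obtain ⟨h1, r', h2, h3⟩ := hp
    rw [rk_eq a P hx.1.1 hl h1 h2] at h3
    exact Finset.mem_filter.2 ⟨Finset.mem_range.2 h1, r', h2, h3⟩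
  have key : ∀ z, Feas (ros F) (JJ F) vv (x.length + 3) z → ∃ y ∈ cands F (T0 a P F N) x A C,
      W (ww a P) (x.length + 3) z ≤ val a P (qW y) := by
    intro z hz
    obtain ⟨y', b1, b2, b3⟩ := step_opt (fun r j _ => vv_le r j) hx hA z hz
    let l := sl F (T0 a P F N) x A
    have hl' : ∀ p ∈ l, p < x.length + 3 := by
      intro p hp
      simp only [l, sl, List.mem_append, List.mem_filter, List.mem_range, List.mem_cons,
        List.not_mem_nil, or_false] at hp
      omega
    have e : ∀ p < x.length + 3, fn (mkc x l (l.map y')) p = y' p := by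
      intro p hp
      rw [fn_mkc _ _ _ hp]
      split_ifs with h
      · simp [List.idxOf_lt_length_of_mem h]
      · have h1 := lt_of_not_sl hp h
        by_contra hne
        apply h
        refine List.mem_append_left _ (List.mem_filter.2 ⟨List.mem_range.2 h1, ?_⟩)
        rw [decide_eq_true_eq]
        exact ⟨y' p, b1.1 p hp, by rw [rk_eq a P hx.1.1 hl h1 (b1.1 p hp)]; exact b3 p h1 (Ne.symm hne)⟩
    refine ⟨mkc x l (l.map y'), List.mem_filter.2 ⟨List.mem_map.2 ⟨l.map y', ?_, rfl⟩, ?_⟩, ?_⟩
    · refine (tups_all F C _ ((Nat.pow_le_pow_right hR hsl).trans hC) hR).2 _ (by simp [l]) ?_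
      intro r hr
      obtain ⟨p, hp, rfl⟩ := List.mem_map.1 hr
      exact b1.1 p (hl' p hp)
    · rw [bal_iff, len_mkc]
      exact (feas_congr (fun p hp => (e p hp).symm) b1).2
    · rw [val_qW, len_mkc]
      refine b2.trans (le_of_eq (Finset.sum_congr rfl fun p hp => ?_))
      rw [e p (Finset.mem_range.1 hp)]
  have h0 : Feas (ros F) (JJ F) vv (x.length + 3)
      fun p => if p < x.length then fn x p else (r0.1, p - x.length) := by
    refine ⟨fun p hp => ?_, fun j hj => ?_⟩
    · dsimp only; split_ifs with h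
      · exact hx.1.1 p h
      · simp [ros, tys, sgs, r0, hF]; omega
    · simp only [Finset.sum_range_succ]
      rw [Finset.sum_congr rfl (g := fun p => vv (fn x p) j) fun p hp => by
        rw [if_pos (Finset.mem_range.1 hp)], hx.1.2 j hj]
      obtain ⟨τ, i⟩ := j
      simp only [JJ, Finset.mem_product, Finset.mem_insert, Finset.mem_singleton] at hj
      rcases hj.2 with h | h <;> subst h <;> by_cases e : r0.1 = τ <;> simp [vv, e]
  obtain ⟨y0, hy0, -⟩ := key _ h0
  obtain ⟨m1, m2⟩ := pick_max a P _ (List.ne_nil_of_mem hy0)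
  obtain ⟨c1, c2⟩ := cands_ok hx.1.1 m1
  refine ⟨c1, ?_⟩
  unfold OptL
  rw [c1]
  refine ⟨c2, fun z hz => ?_⟩
  obtain ⟨y, hy, h⟩ := key z hz
  have := m2 y hy
  rw [val_qW a P (pick _ _), c1] at this
  exact h.trans this

end

end Pool.Agent.H.MP_95c4c5_lc
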