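import Pool.Agent.H.MP_95c4c5_lc.C

set_option autoImplicit false

namespace Pool.Agent.H.MP_95c4c5_lc
open Pool.Agent.Lib.CX

theorem perm_key {β : Type} (x : β → Ro) (L : List Ro) (hL : L.Nodup) (l : List β)
    (h : ∀ p ∈ l, x p ∈ L) : (L.flatMap fun r => l.filter fun p => decide (x p = r)).Perm l := by
  classical
  rw [List.perm_iff_count]
  intro p
  rw [List.count_flatMap]
  by_cases hp : p ∈ l
  · have e : ∀ r, List.count p (l.filter fun p => decide (x p = r)) = if r = x p then l.count p else 0 := by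
      intro r
      split_ifs with h
      · rw [List.count_filter]; simp [h]
      · rw [List.count_eq_zero]; simp [Ne.symm h]
    simp only [Function.comp_def, e]
    rw [← List.sum_toFinset _ hL, Finset.sum_ite_eq']
    simp [h p hp]
  · rw [List.count_eq_zero.2 hp, List.sum_eq_zero_iff]
    intro k hk
    obtain ⟨r, -, rfl⟩ := List.mem_map.1 hk
    simp [List.count_eq_zero, hp]

theorem zip3 (l0 : List ℕ) : ∀ l1 l2 : List ℕ, l0.length = l1.length → l0.length = l2.length →
    ((l0.zip (l1.zip l2)).flatMap fun t => [t.1, t.2.1, t.2.2]).Perm (l0 ++ (l1 ++ l2)) := by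
  induction l0 with
  | nil => intro l1 l2 h1 h2; simp [List.length_eq_zero_iff.1 h1.symm, List.length_eq_zero_iff.1 h2.symm]
  | cons a l0 ih =>
    rintro (_ | ⟨b, l1⟩) (_ | ⟨c, l2⟩) h1 h2 <;> simp only [List.length_cons, List.length_nil] at h1 h2 <;>
      try omega
    have := (ih l1 l2 (by omega) (by omega)).count_eq
    rw [List.perm_iff_count]
    intro z
    simp only [List.zip_cons_cons, List.flatMap_cons, List.count_append, List.count_cons, this,
      List.count_nil]
    omega

theorem nodup_tys (F : LU) : (tys F).Nodup := by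
  have : (sgs F).Nodup := List.Nodup.product (by simp) List.nodup_range
  exact this.product (this.product this)

theorem len_idx (x : List Ro) (r : Ro) : (idx x r).length = x.count r := by
  have := count_fn x r
  rw [Finset.sum_boole] at this
  rw [idx, ← List.toFinset_card_of_nodup (List.nodup_range.filter _)]
  have h2 := Int.ofNat.inj this
  rw [← h2]
  congr 1
  ext p; simp [fn]

theorem tri_part {F : LU} {x : List Ro} (h : Feas (ros F) (JJ F) vv x.length (fn x)) :
    ((tri F x).flatMap fun t => [t.1, t.2.1, t.2.2]).Perm (List.range x.length) := by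
  have hb := (bal_iff F x).2 h.2
  simp only [bal, decide_eq_true_eq] at hb
  have h1 := perm_key (fn x) (ros F) ((nodup_tys F).product (by simp)) (List.range x.length)
    (fun p hp => h.1 p (List.mem_range.1 hp))
  refine List.Perm.trans ?_ h1
  have e : ros F = (tys F).flatMap fun τ => [(τ, 0), (τ, 1), (τ, 2)] := rfl
  rw [tri, List.flatMap_assoc, e, List.flatMap_assoc]
  refine List.Perm.flatMap_left _ fun τ hτ => ?_
  refine (zip3 _ _ _ (by rw [len_idx, len_idx]; exact (hb τ hτ).1)
    (by rw [len_idx, len_idx]; exact (hb τ hτ).2)).trans ?_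
  simp [idx, fn]

section
variable {s : ℕ} (a P : ℕ → Fin s → ℝ)

noncomputable def sd (σ : Sg) (x : Fin s → ℝ) : ℝ := (if σ.1 then 1 else -1) * (a σ.2 ⬝ᵥ x)

theorem sd_le {F : LU} {σ : Sg} (h : σ ∈ sgs F) (x : Fin s → ℝ) : sd a σ x ≤ nrm F.length a x := by
  have h1 : σ.2 < F.length := by
    obtain ⟨b, i⟩ := σ; simpa using (List.mem_product.1 h).2
  refine le_trans ?_ (le_ciSup (f := fun i : Fin F.length => |a i ⬝ᵥ x|) (Set.finite_range _).bddAbove ⟨_, h1⟩)
  unfold sd
  split_ifs
  · simpa using le_abs_self _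
  · simpa using neg_le_abs _

theorem sd_eq {F : LU} (hF : 0 < F.length) (x : Fin s → ℝ) : ∃ σ ∈ sgs F, sd a σ x = nrm F.length a x := by
  have : Nonempty (Fin F.length) := ⟨⟨0, hF⟩⟩
  obtain ⟨i, hi⟩ := exists_eq_ciSup_of_finite (f := fun i : Fin F.length => |a i ⬝ᵥ x|)
  refine ⟨(decide (0 ≤ a i ⬝ᵥ x), i), List.mem_product.2
    ⟨by cases decide (0 ≤ a i ⬝ᵥ x) <;> simp, by simp⟩, ?_⟩
  rw [nrm, ← hi, sd]
  by_cases h : 0 ≤ a i ⬝ᵥ x
  · simp [h, abs_of_nonneg h]
  · simp [h, abs_of_neg (not_le.1 h)]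

theorem ww3 (τ : Ty) (p q r : ℕ) : ww a P p (τ, 0) + (ww a P q (τ, 1) + ww a P r (τ, 2)) =
    sd a τ.1 (P p - P q) + sd a τ.2.1 (P q - P r) + sd a τ.2.2 (P r - P p) := by
  obtain ⟨⟨b1, i1⟩, ⟨b2, i2⟩, ⟨b3, i3⟩⟩ := τ
  cases b1 <;> cases b2 <;> cases b3 <;> simp [ww, val, qw, pl, mi, sd, dotProduct_sub] <;> ring

theorem sum_flat (T : Tri) (h : ℕ → ℝ) : ((T.flatMap fun t => [t.1, t.2.1, t.2.2]).map h).sum =
    (T.map fun t => h t.1 + (h t.2.1 + h t.2.2)).sum := by
  induction T with
  | nil => rfl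
  | cons t T ih => simp only [List.flatMap_cons, List.map_append, List.sum_append, ih]; simp

theorem tri_ge {F : LU} {x : List Ro} (h : Feas (ros F) (JJ F) vv x.length (fn x)) :
    W (ww a P) x.length (fn x) ≤ per F.length a P (tri F x) := by
  have h1 := ((tri_part h).map fun p => ww a P p (fn x p)).sum_eq
  rw [sum_flat, ← List.sum_toFinset _ List.nodup_range, List.toFinset_range] at h1
  rw [W, ← h1, per]
  refine List.sum_le_sum fun t ht => ?_
  obtain ⟨τ, hτ, ht⟩ := List.mem_flatMap.1 ht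
  have a1 := List.of_mem_zip ht
  have a2 := List.of_mem_zip a1.2
  have e : ∀ {p r}, p ∈ idx x r → fn x p = r := fun h => by simpa [fn] using (List.mem_filter.1 h).2
  rw [e a1.1, e a2.1, e a2.2, ww3]
  obtain ⟨τ1, τ2, τ3⟩ := τ
  simp only [tys, List.mem_product] at hτ
  have := sd_le a hτ.1 (P t.1 - P t.2.1)
  have := sd_le a hτ.2.1 (P t.2.1 - P t.2.2)
  have := sd_le a hτ.2.2 (P t.2.2 - P t.1)
  linarith

theorem part_le {F : LU} (hF : 0 < F.length) {n : ℕ} {T : Tri} (hT : IsPart n T) :
    ∃ z, Feas (ros F) (JJ F) vv (3 * n) z ∧ W (ww a P) (3 * n) z = per F.length a P T := by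
  classical
  choose σ h1 h2 using sd_eq a hF
  let τ : ℕ × ℕ × ℕ → Ty := fun t =>
    (σ (P t.1 - P t.2.1), σ (P t.2.1 - P t.2.2), σ (P t.2.2 - P t.1))
  let E : List (ℕ × Ro) := T.flatMap fun t => [(t.1, τ t, 0), (t.2.1, τ t, 1), (t.2.2, τ t, 2)]
  have e1 : E.map Prod.fst = T.flatMap fun t => [t.1, t.2.1, t.2.2] := by
    simp [E, List.map_flatMap]
  have hn : (E.map Prod.fst).Nodup := e1 ▸ hT.nodup_iff.2 List.nodup_range
  have ex : ∀ p, ∃ r, ∀ e ∈ E, e.1 = p → e.2 = r := by
    intro p
    by_cases h : ∃ e ∈ E, e.1 = p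
    · obtain ⟨e, he, rfl⟩ := h
      exact ⟨e.2, fun e' he' h => by rw [List.inj_on_of_nodup_map hn he' he h]⟩
    · exact ⟨r0, fun e he h' => (h ⟨e, he, h'⟩).elim⟩
  choose z hz using ex
  have key : ∀ {A : Type} [AddCommMonoid A] (G : ℕ → Ro → A), ∑ p ∈ Finset.range (3 * n), G p (z p) =
      (T.map fun t => G t.1 (τ t, 0) + (G t.2.1 (τ t, 1) + G t.2.2 (τ t, 2))).sum := by
    intro A _ G
    rw [← List.toFinset_range, List.sum_toFinset _ List.nodup_range, ← (hT.map _).sum_eq, ← e1,
      List.map_map, List.map_congr_left (g := fun e => G e.1 e.2) fun e he => by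
        simp [hz e.1 e he rfl]]
    simp only [E]
    clear hz z hn e1 E hT
    induction T with
    | nil => rfl
    | cons t T ih => simp only [List.flatMap_cons, List.map_append, List.sum_append, ih]; simp
  refine ⟨z, ⟨fun p hp => ?_, fun j hj => ?_⟩, ?_⟩
  · have : p ∈ E.map Prod.fst := e1 ▸ hT.mem_iff.2 (List.mem_range.2 hp)
    obtain ⟨e, he, rfl⟩ := List.mem_map.1 this
    rw [← hz e.1 e he rfl]
    obtain ⟨t, -, ht⟩ := List.mem_flatMap.1 he
    simp only [List.mem_cons, List.not_mem_nil, or_false] at ht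
    rcases ht with rfl | rfl | rfl <;> simp [ros, tys, τ, h1]
  · rw [key fun _ r => vv r j]
    refine List.sum_eq_zero fun k hk => ?_
    obtain ⟨t, -, rfl⟩ := List.mem_map.1 hk
    obtain ⟨τ', i⟩ := j
    simp only [JJ, Finset.mem_product, Finset.mem_insert, Finset.mem_singleton] at hj
    rcases hj.2 with h | h <;> subst h <;> by_cases e : τ t = τ' <;> simp [vv, e]
  · rw [W, key (ww a P), per]
    congr 1
    refine List.map_congr_left fun t _ => ?_
    rw [ww3]; simp only [τ, h2]

theorem pads (F : LU) : 3 ^ 7 ^ ((JJ F).card + 1) ≤ (pA F.length).length ∧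
    (ros F).length ^ ((pA F.length).length * (ros F).length * (ros F).length + 3) ≤
      (pC F.length).length := by
  simp only [pA, pC, List.length_replicate, len_ros]
  have h1 := card_JJ F
  generalize F.length = f at *
  constructor
  · calc _ ≤ (2 ^ 2) ^ 7 ^ (16 * f ^ 3 + 1) :=
          (Nat.pow_le_pow_left (by norm_num) _).trans
            (Nat.pow_le_pow_right (by norm_num) (Nat.pow_le_pow_right (by norm_num) (by omega)))
      _ = 2 ^ (2 * 7 ^ (16 * f ^ 3 + 1)) := by rw [← pow_mul]
      _ ≤ _ := Nat.pow_le_pow_right (by norm_num) (by unfold KK; omega)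
  · obtain ⟨R, hR⟩ : ∃ R, R = 24 * f ^ 3 := ⟨_, rfl⟩
    rw [← hR]
    have h2 : R ≤ 2 ^ R := Nat.lt_two_pow_self.le
    have h3 : 2 ^ (3 * R + 2) ≤ 2 ^ KK f := Nat.pow_le_pow_right (by norm_num) (by unfold KK; omega)
    have h4 : 2 ^ (3 * R + 2) = 4 * (2 ^ R * 2 ^ R * 2 ^ R) := by ring
    have h5 : 4 ^ KK f = 2 ^ KK f * 2 ^ KK f := by rw [← mul_pow]; rfl
    have h6 : 1 ≤ 2 ^ R := Nat.one_le_two_pow
    have h7 : 1 ≤ 2 ^ KK f := Nat.one_le_two_pow
    refine (Nat.pow_le_pow_left h2 _).trans ?_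
    rw [← pow_mul]
    refine Nat.pow_le_pow_right (by norm_num) ?_
    rw [h5]
    generalize 2 ^ KK f = L at *
    generalize 2 ^ R = Q at *
    calc R * (L * R * R + 3) ≤ Q * (L * Q * Q + L * Q * Q * 3) := by
          gcongr
          exact Nat.le_mul_of_pos_left _ (by positivity)
      _ = L * (4 * (Q * Q * Q)) := by ring
      _ ≤ L * L := by gcongr; omega

def B0 (F N : LU) : ℕ := size F + size N + 3 * size (keys F N) + 3 * N.length * (size (ros F) + 1) +
  3 * ((2 ^ 4 ^ KK F.length + 1) * (2 ^ 4 ^ KK F.length + 1)) + 40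

theorem run {p : Prog} {Tm : ℕ} {F N : LU} (hF : 0 < F.length)
    (hp : ∀ (l : List (List Key × List Ro)) (h : List Bool), size (((F, N, l) : Mem), h) ≤ B0 F N →
      R p (enc (((F, N, l) : Mem), h)) (enc (main (F, N, l) h (pA F.length) (pC F.length))) Tm) (k : ℕ) :
    ∀ (l : List (List Key × List Ro)) (h : List Bool) (x : List Ro),
      size (((F, N, l) : Mem), h) ≤ B0 F N → OptL a P F x → x.length + 3 * k = 3 * N.length →
      main (F, N, l) h (pA F.length) (pC F.length) =
        fin F N (T0 a P F N, x) (pA F.length) (pC F.length) →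
      ∃ t out, t ≤ (k + 1) * Tm ∧ Run p (ans a P) (Enc.tr ((F, N, l) : Mem)) h t out ∧
        IsPart N.length out ∧
        ∀ T, IsPart N.length T → per F.length a P T ≤ per F.length a P out := by
  induction k with
  | zero =>
    intro l h x h1 h2 h3 h4
    obtain ⟨t, ht, m, e⟩ := hp l h h1
    rw [h4, fin, if_pos (by simp; omega), ← io_eq, ← io_eq] at e
    refine ⟨t, tri F x, by omega, Run.stop (m' := Enc.tr ((F, N, []) : Mem)) e, ?_, fun T hT => ?_⟩
    · unfold IsPart; rw [← h3]; exact tri_part h2.1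
    · obtain ⟨z, z1, z2⟩ := part_le a P hF hT
      rw [← z2]
      refine le_trans ?_ (tri_ge a P h2.1)
      rw [← h3] at z1 ⊢
      exact h2.2 z z1
  | succ k ih =>
    intro l h x h1 h2 h3 h4
    obtain ⟨t, ht, m, e⟩ := hp l h h1
    rw [h4, fin, if_neg (by simp; omega), ← io_eq, ← io_eq] at e
    obtain ⟨s1, s2⟩ := step a P (N := N) hF h2 (by omega) (pads F).1 (pads F).2
    obtain ⟨u, out, b1, b2, b3⟩ := ih [(T0 a P F N, x)]
      ((qs (cands F (T0 a P F N) x (pA F.length) (pC F.length))).map (ans a P)) _ (by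
        have c1 := cands_len F (pA F.length) (pC F.length) (T0 a P F N) x
        have c2 : size (T0 a P F N) ≤ size (keys F N) := by
          rw [T0, mkT, List.map_map, zip_map_self, List.filter_map, List.map_map]
          exact size_sublist (by simp [Function.comp_def])
        have c3 : size x ≤ x.length * (size (ros F) + 1) + 2 := size_ros_list fun r hr => by
          obtain ⟨i, hi, rfl⟩ := List.getElem_of_mem hr
          simpa [fn, hi] using h2.1.1 i hi
        have c4 : x.length * (size (ros F) + 1) ≤ 3 * N.length * (size (ros F) + 1) :=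
          Nat.mul_le_mul_right _ (by omega)
        simp only [pC, List.length_replicate] at c1
        have c5 := Nat.mul_le_mul c1 c1
        simp only [size_pair, size_cons, size_nil, size_bits, List.length_map, qs, List.length_product,
          B0, pC]
        omega) s2 (by omega) (by simp [main, nxt])
    exact ⟨t + u, out, by rw [Nat.succ_mul (k + 1)]; omega,
      Run.ask (m' := Enc.tr ((F, N, [(T0 a P F N, x)]) : Mem)) e b2, b3⟩

theorem run0 {p : Prog} {Tm : ℕ} {F N : LU} (hF : 0 < F.length)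
    (hp : ∀ (l : List (List Key × List Ro)) (h : List Bool), size (((F, N, l) : Mem), h) ≤ B0 F N →
      R p (enc (((F, N, l) : Mem), h)) (enc (main (F, N, l) h (pA F.length) (pC F.length))) Tm) :
    ∃ t out, t ≤ (N.length + 2) * Tm ∧ Run p (ans a P) (Enc.tr (F, N, ())) [] t out ∧
      IsPart N.length out ∧
      ∀ T, IsPart N.length T → per F.length a P T ≤ per F.length a P out := by
  obtain ⟨t, ht, m, e⟩ := hp [] [] (by simp only [size_pair, size_nil, B0]; omega)
  rw [main, if_pos (by simp), ← io_eq, ← io_eq] at e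
  obtain ⟨u, out, b1, b2, b3⟩ := run a P hF hp N.length [([], []), ([], [])]
    (((keys F N).map qk).map (ans a P)) [] (by
      have := length_le_size (keys F N)
      simp only [size_pair, size_cons, size_nil, size_bits, List.length_map, B0]
      omega) ⟨⟨by simp, by simp⟩, by simp [W]⟩ (by simp) (by simp [main, nxt, T0])
  exact ⟨t + u, out, by rw [Nat.succ_mul (N.length + 1)]; omega,
    Run.ask (m := Enc.tr ((F, N, []) : Mem)) (m' := Enc.tr ((F, N, [([], []), ([], [])]) : Mem)) e b2, b3⟩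

end

end Pool.Agent.H.MP_95c4c5_lc
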