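import Pool.Agent.Lib.lead.CXDefs

set_option autoImplicit false

namespace Pool.Agent.H.MP_95c4c5_lc
open Pool.Agent.Lib.CX

/-- a query: a list of terms (sign, i, j) standing for plus or minus `a_i · p_j` -/
abbrev Qry := List (Bool × ℕ × ℕ)

/-- a list of triples of point indices -/
abbrev Tri := List (ℕ × ℕ × ℕ)

open Classical in
/-- the answer to a query: is the signed sum nonnegative -/
noncomputable def ans {s : ℕ} (a P : ℕ → Fin s → ℝ) (q : Qry) : Bool :=
  decide (0 ≤ (q.map fun t => (if t.1 then 1 else -1) * (a t.2.1 ⬝ᵥ P t.2.2)).sum)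

/-- `Run p o m h t out`: from memory `m` and last answers `h`, the program `p`, restarted after each
batch of queries, outputs `out` after `t` machine steps in total -/
inductive Run (p : Prog) (o : Qry → Bool) : Tr → List Bool → ℕ → Tri → Prop
  | stop {m m' : Tr} {h : List Bool} {t k : ℕ} {out : Tri} :
      Exec p (io (enc (m, h))) (io (enc (m', ([] : List Qry), some out))) t k → Run p o m h t out
  | ask {m m' : Tr} {h : List Bool} {Q : List Qry} {t k u : ℕ} {out : Tri} :
      Exec p (io (enc (m, h))) (io (enc (m', Q, (none : Option Tri)))) t k →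
      Run p o m' (Q.map o) u out → Run p o m h (t + u) out

/-- the polyhedral norm with facet normals `a 0, …, a (f-1)` -/
noncomputable def nrm {s : ℕ} (f : ℕ) (a : ℕ → Fin s → ℝ) (x : Fin s → ℝ) : ℝ :=
  ⨆ i : Fin f, |a i ⬝ᵥ x|

/-- total perimeter of a list of triangles -/
noncomputable def per {s : ℕ} (f : ℕ) (a P : ℕ → Fin s → ℝ) (T : Tri) : ℝ :=
  (T.map fun t => nrm f a (P t.1 - P t.2.1) + nrm f a (P t.2.1 - P t.2.2) + nrm f a (P t.2.2 - P t.1)).sum

/-- the triples partition the indices `0, …, 3n-1` -/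
def IsPart (n : ℕ) (T : Tri) : Prop :=
  (T.flatMap fun t => [t.1, t.2.1, t.2.2]).Perm (List.range (3 * n))

end Pool.Agent.H.MP_95c4c5_lc
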